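import Pool.Agent.H849.PX.Defs
import Pool.Agent.H849.PW.Pos

/-!
# Lefschetz maps to products of polarised schemes, curves and surfaces
-/

set_option autoImplicit false
set_option linter.unusedSectionVars false

open Module TensorProduct

namespace Pool.Agent.H849.PX

open Pool.Agent.Y143 Pool.Agent.H849.SF Pool.Agent.H849.NC Pool.Agent.H849.PW

universe u v

variable {Ω : Type u} [Field Ω] [CharZero Ω]

section Form

variable {E : Type v} [AddCommGroup E] [Module Ω E] {P : Set Ω} {e : Ω} {d δ : Module.End Ω E}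
  {h : E →ₗ[Ω] (E →+ Ω)} (hP : IsPositiveCone P) (he : e * e = 1) (H : IsHodgeForm P e d δ h)
include hP he H

lemma form_lap (x y : E) : h ((d * δ + δ * d) x) y = e * (h (δ x) (δ y) + h (d x) (d y)) := by
  rw [LinearMap.add_apply, map_add, AddMonoidHom.add_apply, Module.End.mul_apply,
    Module.End.mul_apply, H.adj (δ x) y, H.adj' (d x) y, mul_add]

lemma form_lap' (x y : E) : h x ((d * δ + δ * d) y) = e * (h (δ x) (δ y) + h (d x) (d y)) := by
  rw [LinearMap.add_apply, map_add, Module.End.mul_apply, Module.End.mul_apply, H.adj x (d y),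
    H.adj' x (δ y), mul_add, ← mul_assoc, ← mul_assoc, he, one_mul, one_mul]

lemma form_zero {x : E} (hx : h x x = 0) : x = 0 := by
  by_contra hne
  exact hP.zero (hx ▸ H.pos x hne)

lemma sum_pos (x : E) : (δ x = 0 ∧ d x = 0) ∨ h (δ x) (δ x) + h (d x) (d x) ∈ P := by
  by_cases h1 : δ x = 0
  · by_cases h2 : d x = 0
    · exact Or.inl ⟨h1, h2⟩
    · right
      rw [h1, map_zero, zero_add]
      exact H.pos _ h2
  · right
    by_cases h2 : d x = 0
    · rw [h2, map_zero, add_zero]
      exact H.pos _ h1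
    · exact hP.add _ (H.pos _ h1) _ (H.pos _ h2)

/-- The strong form, for a polarised scheme. -/
theorem vanishes : VanishesOnNull (d * δ + δ * d) d := by
  have he0 : e ≠ 0 := fun h0 => by rw [h0, mul_zero] at he; exact zero_ne_one he
  have h1 : ∀ x, (d * δ + δ * d) x = 0 → d x = 0 := by
    intro x hx
    have h2 := form_lap hP he H x x
    rw [hx, map_zero, AddMonoidHom.zero_apply] at h2
    have h3 : h (δ x) (δ x) + h (d x) (d x) = 0 :=
      (mul_eq_zero.1 h2.symm).resolve_left he0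
    rcases sum_pos hP he H x with h4 | h4
    · exact h4.2
    · rw [h3] at h4
      exact absurd h4 hP.zero
  have h2 : ∀ x, (d * δ + δ * d) ((d * δ + δ * d) x) = 0 → (d * δ + δ * d) x = 0 := by
    intro x hx
    apply form_zero hP he H
    rw [form_lap' hP he H, ← form_lap hP he H, hx, map_zero, AddMonoidHom.zero_apply]
  have key : ∀ (m : ℕ) x, ((d * δ + δ * d) ^ (m + 1)) x = 0 → (d * δ + δ * d) x = 0 := by
    intro m
    induction m with
    | zero =>
      intro x hx
      rwa [zero_add, pow_one] at hx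
    | succ m ih =>
      intro x hx
      rw [pow_succ, Module.End.mul_apply] at hx
      exact h2 x (ih _ hx)
  intro m x hx
  rcases Nat.eq_zero_or_pos m with rfl | hm
  · rw [pow_zero, Module.End.one_apply] at hx
    rw [hx, map_zero]
  · obtain ⟨k, rfl⟩ : ∃ k, m = k + 1 := ⟨m - 1, by omega⟩
    exact h1 x (key k x hx)

/-- The eigenvalues, for a polarised scheme. -/
theorem eigen_pos {μ : Ω} (hμ : (d * δ + δ * d).HasEigenvalue μ) (h0 : μ ≠ 0) : e * μ ∈ P := by
  obtain ⟨x, hx⟩ := hμ.exists_hasEigenvector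
  have h1 := form_lap hP he H x x
  rw [hx.apply_eq_smul, map_smul] at h1
  have h2 : μ * h x x = e * (h (δ x) (δ x) + h (d x) (d x)) := h1
  have h3 : h x x ∈ P := H.pos x hx.2
  have h4 : h x x ≠ 0 := fun h5 => hP.zero (h5 ▸ h3)
  rcases sum_pos hP he H x with h5 | h5
  · rw [h5.1, h5.2, map_zero, add_zero, mul_zero] at h2
    exact absurd h2 (mul_ne_zero h0 h4)
  · have h6 : e * μ = (h (δ x) (δ x) + h (d x) (d x)) * (h x x)⁻¹ := by
      rw [eq_mul_inv_iff_mul_eq₀ h4, mul_assoc, h2, ← mul_assoc, he, one_mul]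
    rw [h6]
    exact hP.mul _ h5 _ (hP.inv _ h3)

end Form

/-- The Laplace operator. -/
def LogScheme.laplace (A : LogScheme.{u, v} Ω) : Module.End Ω A.T.E := lap A.P.N' A.P.Λ A.T.d

/-- The strong form, and the sign of the eigenvalues. -/
structure IsStrong (A : LogScheme.{u, v} Ω) (S : Set Ω) : Prop where
  vanish : VanishesOnNull A.laplace A.T.d
  pos : ∀ μ, A.laplace.HasEigenvalue μ → μ ≠ 0 → μ ∈ S

theorem isStrong [IsAlgClosed Ω] {P : Set Ω} (hP : IsPositiveCone P) {e : Ω} (he : e * e = 1)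
    {A : LogScheme.{u, v} Ω} (hA : A.IsAdmissible P e) : IsStrong A {x | e * x ∈ P} := by
  rcases hA with ⟨h, H⟩ | ⟨F, rfl, hF⟩
  · exact ⟨vanishes hP he H, fun μ hμ h0 => eigen_pos hP he H hμ h0⟩
  · have h1 : F.IsDefinite e := hF.elim (fun h => h.isDefinite) id
    exact ⟨F.strong, fun μ hμ h0 => hP.tp _ (h1 μ hμ h0)⟩

section Product

variable {U : Type v} [AddCommGroup U] [Module Ω U]

lemma good_prod [IsAlgClosed Ω] {C : Cx Ω U} {S S' : Set Ω} (G : Good C S)
    (A : LogScheme.{u, v} Ω) (hA : IsStrong A S') {t : Ω} (ht : t ≠ 0)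
    (hne : ∀ a, A.laplace.HasEigenvalue a → ∀ b ∈ S, t⁻¹ * a + b = 0 → a = 0 ∧ b = 0) :
    Good (tensor A.T.N A.T.d (t • A.P.L) A.T.col A.P.sgn C)
      {c | ∃ a, A.laplace.HasEigenvalue a ∧ ∃ b ∈ S, t⁻¹ * a + b = c} := by
  have hX := A.isTerm.finite
  have ht' : t⁻¹ ≠ 0 := inv_ne_zero ht
  have hWX := scale_weight (weight_polarization A.isTerm A.graded A.dual) ht
  have hPX := scale_parity (parity_polarization A.isTerm A.graded A.dual) t t⁻¹
  have hdX := WeightTerm.diag_col A.isTerm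
  have hvX : VanishesOnNull (lap A.P.N' (t⁻¹ • A.P.Λ) A.T.d) A.T.d := by
    rw [scale_lap]
    exact scale_vanish hA.vanish ht'
  have heX : ∀ a, (lap A.P.N' (t⁻¹ • A.P.Λ) A.T.d).HasEigenvalue a →
      A.laplace.HasEigenvalue (t * a) := by
    intro a ha
    rw [scale_lap] at ha
    have := scale_eigen ht' ha
    rwa [inv_inv] at this
  have key := good_tprod hWX hdX hPX hvX G (by
    intro a ha b hb h
    have h2 := hne _ (heX a ha) b hb (by rwa [inv_mul_cancel_left₀ ht])
    exact ⟨(mul_eq_zero.1 h2.1).resolve_left ht, h2.2⟩)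
  rw [← tensor_eq] at key
  obtain ⟨k1, N', h₂, L', k2, k3, k4, k5, k6, k7⟩ := key
  refine ⟨k1, N', h₂, L', k2, k3, k4, k5, ?_, k7⟩
  intro c hc
  obtain ⟨a, ha, b, hb, hab⟩ := k6 c hc
  refine ⟨t * a, heX a ha, b, hb, ?_⟩
  rw [inv_mul_cancel_left₀ ht, hab]

lemma Good.mono {C : Cx Ω U} {S S' : Set Ω} (G : Good C S) (h : S ⊆ S') : Good C S' := by
  obtain ⟨k1, N', h₂, L', k2, k3, k4, k5, k6, k7⟩ := G
  exact ⟨k1, N', h₂, L', k2, k3, k4, k5, fun c hc => h (k6 c hc), k7⟩

/-- The product is good, with positive eigenvalues. -/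
theorem good_product [IsAlgClosed Ω] [Module.Finite Ω U] {S : Set Ω} (h0 : (0 : Ω) ∉ S)
    (hadd : ∀ x ∈ S, ∀ y ∈ S, x + y ∈ S) (hmul : ∀ c : ℚ, 0 < c → ∀ x ∈ S, (c : Ω) * x ∈ S) :
    ∀ (s : ℕ) (A : Fin s → LogScheme.{u, v} Ω) (t : Fin s → ℚ), (∀ i, 0 < t i) →
      (∀ i, IsStrong (A i) S) → Good (product U s A fun i => (t i : Ω)) (insert 0 S)
  | 0, A, t, _, _ => by
    have h1 := good_base (Ω := Ω) (U := U)
    refine Good.mono h1 ?_
    intro x hx
    exact Or.inl hx
  | s + 1, A, t, ht, hA => by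
    have ih := good_product h0 hadd hmul s (fun i => A i.succ) (fun i => t i.succ)
      (fun i => ht _) fun i => hA _
    have ht0 : (t 0 : Ω) ≠ 0 := Rat.cast_ne_zero.2 (ht 0).ne'
    have hcase : ∀ a, (A 0).laplace.HasEigenvalue a → (t 0 : Ω)⁻¹ * a = 0 ∨
        (t 0 : Ω)⁻¹ * a ∈ S := by
      intro a ha
      by_cases h : a = 0
      · left
        rw [h, mul_zero]
      · right
        have h2 := hmul (t 0)⁻¹ (inv_pos.2 (ht 0)) _ ((hA 0).pos a ha h)
        rwa [Rat.cast_inv] at h2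
    have h1 := good_prod ih (A 0) (hA 0) ht0 (by
      intro a ha b hb hab
      rcases hcase a ha with h2 | h2
      · rw [h2, zero_add] at hab
        exact ⟨(mul_eq_zero.1 h2).resolve_left (inv_ne_zero ht0), hab⟩
      · exfalso
        rcases hb with hb | hb
        · rw [hb, add_zero] at hab
          exact h0 (hab ▸ h2)
        · exact h0 (hab ▸ hadd _ h2 _ hb))
    refine Good.mono h1 ?_
    rintro c ⟨a, ha, b, hb, rfl⟩
    rcases hcase a ha with h2 | h2
    · rw [h2, zero_add]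
      exact hb
    · rcases hb with hb | hb
      · rw [hb, add_zero]
        exact Or.inr h2
      · exact Or.inr (hadd _ h2 _ hb)

end Product

/-- **The theorem.** -/
theorem allPure [IsAlgClosed Ω] {P : Set Ω} (hP : IsPositiveCone P) {e : Ω} (he : e * e = 1)
    {s : ℕ} (A : Fin s → LogScheme.{u, v} Ω) (hA : ∀ i, (A i).IsAdmissible P e)
    (t : Fin s → ℚ) (ht : ∀ i, 0 < t i) : AllPure A fun i => (t i : Ω) := by
  rintro U _ _ _ n q r Z M ⟨pull, push, hL⟩
  have G := good_product (U := U) (S := {x | e * x ∈ P})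
    (fun h => hP.zero (by simpa using h))
    (fun x hx y hy => by
      have h1 := hP.add _ hx _ hy
      rwa [← mul_add] at h1)
    (fun c hc x hx => by
      have h1 : (c : Ω) ∈ P := by
        apply hP.tp
        have h2 := tp_mul hc (x := (1 : Ω)) ⟨isAlgebraic_one, fun z hz => ⟨1, one_pos, by
          rw [minpoly.one] at hz
          simpa [sub_eq_zero] using hz⟩⟩
        rwa [mul_one] at h2
      have h2 := hP.mul _ h1 _ hx
      rwa [mul_left_comm] at h2) s A t ht fun i => isStrong hP he (hA i)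
  exact Z.allPure_of fun k w _ => inj_of_lefschetz Z.isTerm G hL k w

end Pool.Agent.H849.PX
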