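import Pool.Agent.H849.PW.Defs

/-!
# Products of polarised schemes, curves and surfaces: definitions
-/

set_option autoImplicit false

namespace Pool.Agent.H849.PX

open Module TensorProduct Pool.Agent.H849.SF Pool.Agent.H849.PW

universe u v

/-- A projective log smooth scheme `X` over `O` of relative dimension `n` (for example a strictly
semistable one), with a polarization: its `E_1` term and its operators, with their known properties. -/
structure LogScheme (Ω : Type u) [Field Ω] [CharZero Ω] where
  n : ℕ
  q : ℕ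
  T : WeightTerm.{u, v} Ω
  isTerm : T.IsTerm n q
  P : Polarization T
  dual : P.IsDual
  graded : P.IsGraded n

/-- `P` is a set of positive elements of `Ω`, for example the inverse image of the positive real
numbers under an isomorphism `Ω → ℂ`. -/
structure IsPositiveCone {Ω : Type u} [Field Ω] [CharZero Ω] (P : Set Ω) : Prop where
  zero : (0 : Ω) ∉ P
  add : ∀ x ∈ P, ∀ y ∈ P, x + y ∈ P
  mul : ∀ x ∈ P, ∀ y ∈ P, x * y ∈ P
  inv : ∀ x ∈ P, x⁻¹ ∈ P
  tp : ∀ x, IsTotallyPositive x → x ∈ P

section

variable {Ω : Type u} [Field Ω] [CharZero Ω]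

/-- The form `h`, linear in the first and additive in the second variable, is positive, and `e δ` is
the adjoint of `d`. -/
structure IsHodgeForm {E : Type v} [AddCommGroup E] [Module Ω E] (P : Set Ω) (e : Ω)
    (d δ : Module.End Ω E) (h : E →ₗ[Ω] (E →+ Ω)) : Prop where
  pos : ∀ x, x ≠ 0 → h x x ∈ P
  adj : ∀ x y, h (d x) y = e * h x (δ y)
  adj' : ∀ x y, h (δ x) y = e * h x (d y)

/-- `X` is polarised: there is a positive hermitian form on the `E_1` term for which `e δ` is the
adjoint of `d_1`, where `δ = [N', [Λ, d_1]]`. It exists if the strata of the special fibre satisfy the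
Hodge-Riemann relations (with compatible conjugations): Guillén and Navarro Aznar, M. Saito. -/
def LogScheme.IsPolarized (A : LogScheme.{u, v} Ω) (P : Set Ω) (e : Ω) : Prop :=
  ∃ h : A.T.E →ₗ[Ω] (A.T.E →+ Ω), IsHodgeForm P e A.T.d (cod A.P.N' A.P.Λ A.T.d) h

/-- The scheme underlying a `Factor`. -/
def ofFactor (F : Factor.{u, v} Ω) : LogScheme.{u, v} Ω :=
  ⟨F.n, F.q, F.T, F.isTerm, F.P, F.dual, F.graded⟩

/-- `X` is polarised, or it is a curve or a surface, or the middle cohomology of its sections is mw
pure and the nonzero eigenvalues of `Δ` are totally of the sign `e`. -/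
def LogScheme.IsAdmissible (A : LogScheme.{u, v} Ω) (P : Set Ω) (e : Ω) : Prop :=
  A.IsPolarized P e ∨ ∃ F : Factor.{u, v} Ω, A = ofFactor F ∧ (F.IsSurface e ∨ F.IsDefinite e)

/-- The product `X_1 × ⋯ × X_s × G`, with the polarization `t_1 L_1 + ⋯ + t_s L_s`. -/
noncomputable def product (U : Type v) [AddCommGroup U] [Module Ω U] :
    (s : ℕ) → (Fin s → LogScheme.{u, v} Ω) → (Fin s → Ω) → Cx Ω U
  | 0, _, _ => base Ω U
  | s + 1, A, t => tensor (A 0).T.N (A 0).T.d (t 0 • (A 0).P.L) (A 0).T.col (A 0).P.sgn
      (product U s (fun i => A i.succ) fun i => t i.succ)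

/-- All the cohomology groups of the geometric generic fibre of `Z` are mw pure, for all the log smooth
`Z` with a Lefschetz map `Z → X_1 × ⋯ × X_s × G` of class `∑ L ^ i ⊗ β_i`, where
`L = t_1 L_1 + ⋯ + t_s L_s`, `G` is of good reduction and the `β_i` are any classes on `G`. -/
def AllPure {s : ℕ} (A : Fin s → LogScheme.{u, v} Ω) (t : Fin s → Ω) : Prop :=
  ∀ (U : Type v) [AddCommGroup U] [Module Ω U] [Module.Finite Ω U] (n q r : ℕ)
    (Z : LogModel.{u, v} Ω n q) (M : ℕ → Module.End Ω U),
    HasLefschetzMap n (product U s A t) M r Z.toWeightTerm → ∀ i : ℕ, Z.PureIn i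

end

end Pool.Agent.H849.PX
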